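import Mathlib

/-!
# Hyperelliptic curves with one moving branch point: definitions
-/

namespace Pool.Agent.H9.OrdHyp

open Polynomial

variable {k : Type*} [Field k]

/-- The right-hand side `F = (x - μ) ∏_{l ∈ Λ} (x - l)` of the affine model `y ^ 2 = F(x)` of the
hyperelliptic curve branched at `Λ ∪ {∞, μ}`. -/
noncomputable def branchPoly (Λ : Finset k) (μ : k) : k[X] :=
  (X - C μ) * ∏ l ∈ Λ, (X - C l)

/-- The coordinate ring `k[x, y] / (y ^ 2 - F(x))` of the affine curve `y ^ 2 = F(x)`, as
Mathlib's quadratic algebra over `k[x]`: pairs `a + b y` with `a, b` in `k[x]` and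
`y ^ 2 = F`. -/
abbrev CoordRing (F : k[X]) : Type _ := QuadraticAlgebra k[X] F 0

/-- The smooth projective curve with affine model `y ^ 2 = F(x)`, `F` squarefree of odd degree,
has `p`-rank `f`.  The curve has a single (degree one) point at infinity, so the group of
`k`-points of its Jacobian is the ideal class group of the coordinate ring of the affine model;
the `p`-rank is `f` exactly when the `p`-torsion of this group has order `p ^ f`. -/
def HasPRank (p : ℕ) (F : k[X]) (f : ℕ) : Prop :=
  ∃ _ : IsDomain (CoordRing F), Nat.card {c : ClassGroup (CoordRing F) // c ^ p = 1} = p ^ f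

/-- The Cartier-Manin (Hasse-Witt) matrix of `y ^ 2 = F(x)`: the entry with (one-based) indices
`i, j` is `c_{p i - j}`, where `c_m` is the coefficient of `x ^ m` in `F ^ ((p - 1) / 2)`
(and is `0` for `m < 0`); here it is written as the coefficient of `x ^ (p i)` in
`x ^ j F ^ ((p - 1) / 2)`. -/
noncomputable def cartierManin (p g : ℕ) (F : k[X]) : Matrix (Fin g) (Fin g) k :=
  Matrix.of fun i j => (X ^ ((j : ℕ) + 1) * F ^ ((p - 1) / 2)).coeff (p * ((i : ℕ) + 1))

end Pool.Agent.H9.OrdHyp
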