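import Pool.Agent.H9.OrdHyp.PolyId

namespace Pool.Agent.H9.OrdHyp

open Polynomial

variable {k : Type*} [Field k]

/-- The degree of the norm form. -/
theorem normDeg {F : k[X]} {g : ℕ} (hF : F.natDegree = 2 * g + 1) (a b : k[X]) (ha : a ≠ 0)
    (hb : b ≠ 0) :
    a ^ 2 - b ^ 2 * F ≠ 0 ∧
      2 * a.natDegree + 2 * b.natDegree + 2 * g + 1 ≤ 2 * (a ^ 2 - b ^ 2 * F).natDegree := by
  have hF0 : F ≠ 0 := by
    rintro rfl
    simp at hF
  have hda : (a ^ 2).natDegree = 2 * a.natDegree := natDegree_pow a 2
  have hdb : (b ^ 2 * F).natDegree = 2 * b.natDegree + (2 * g + 1) := by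
    rw [natDegree_mul (pow_ne_zero 2 hb) hF0, natDegree_pow, hF]
  have ha2 : a ^ 2 ≠ 0 := pow_ne_zero 2 ha
  have hb2 : b ^ 2 * F ≠ 0 := mul_ne_zero (pow_ne_zero 2 hb) hF0
  rcases lt_or_ge (2 * a.natDegree) (2 * b.natDegree + (2 * g + 1)) with h | h
  · have hlt : (a ^ 2).natDegree < (b ^ 2 * F).natDegree := by rw [hda, hdb]; exact h
    have e : (a ^ 2 - b ^ 2 * F).natDegree = (b ^ 2 * F).natDegree :=
      natDegree_sub_eq_right_of_natDegree_lt hlt
    refine ⟨?_, ?_⟩
    · intro h0
      rw [h0, natDegree_zero] at e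
      omega
    · rw [e, hdb]
      omega
  · have hlt : (b ^ 2 * F).natDegree < (a ^ 2).natDegree := by rw [hda, hdb]; omega
    have e : (a ^ 2 - b ^ 2 * F).natDegree = (a ^ 2).natDegree :=
      natDegree_sub_eq_left_of_natDegree_lt hlt
    refine ⟨?_, ?_⟩
    · intro h0
      rw [h0, natDegree_zero] at e
      omega
    · rw [e, hda]
      omega

theorem norm_ne_zero {F : k[X]} {g : ℕ} (hF : F.natDegree = 2 * g + 1) (a b : k[X])
    (hab : a ≠ 0 ∨ b ≠ 0) : a ^ 2 - b ^ 2 * F ≠ 0 := by
  have hF0 : F ≠ 0 := by
    rintro rfl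
    simp at hF
  by_cases ha : a = 0
  · subst ha
    have hb : b ≠ 0 := by
      rcases hab with h | h
      · exact absurd rfl h
      · exact h
    intro h
    apply mul_ne_zero (pow_ne_zero 2 hb) hF0
    linear_combination -h
  · by_cases hb : b = 0
    · subst hb
      intro h
      apply pow_ne_zero 2 ha
      linear_combination h
    · exact (normDeg hF a b ha hb).1

theorem deg_bound {F : k[X]} {g : ℕ} (hF : F.natDegree = 2 * g + 1) (h2k : (2 : k) ≠ 0)
    (a b P : k[X]) (hab : a ≠ 0 ∨ b ≠ 0) (h1 : derivative a = b * P)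
    (h2 : 2 * derivative b * F + b * derivative F = 2 * a * P) : P.degree < g := by
  have hF0 : F ≠ 0 := by
    rintro rfl
    simp at hF
  have h2C : (2 : k[X]) ≠ 0 := by
    intro h
    apply h2k
    have := congrArg (eval 0) h
    simpa using this
  have hN := norm_ne_zero hF a b hab
  have key : 2 * ((a ^ 2 - b ^ 2 * F) * P)
      = a * (2 * derivative b * F + b * derivative F) - 2 * b * F * derivative a := by
    rw [h1, h2]
    ring
  by_cases hP : P = 0
  · subst hP
    rw [degree_zero]
    exact WithBot.bot_lt_coe _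
  have ha : a ≠ 0 := by
    rintro rfl
    simp only [derivative_zero, mul_zero, zero_mul, sub_zero] at key
    exact (mul_ne_zero h2C (mul_ne_zero hN hP)) key
  have hb : b ≠ 0 := by
    rintro rfl
    simp only [derivative_zero, mul_zero, zero_mul, sub_zero, add_zero] at key
    exact (mul_ne_zero h2C (mul_ne_zero hN hP)) key
  obtain ⟨-, hdeg⟩ := normDeg hF a b ha hb
  have hD : (a * b * F).degree = ((a.natDegree + b.natDegree + (2 * g + 1) : ℕ) : WithBot ℕ) := by
    rw [degree_eq_natDegree (mul_ne_zero (mul_ne_zero ha hb) hF0),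
      natDegree_mul (mul_ne_zero ha hb) hF0, natDegree_mul ha hb, hF]
  have hlt : (a * (2 * derivative b * F + b * derivative F) - 2 * b * F * derivative a).degree
      < (a * b * F).degree := by
    have t1 : (derivative b).degree < b.degree := degree_derivative_lt hb
    have t2 : (derivative F).degree < F.degree := degree_derivative_lt hF0
    have t3 : (derivative a).degree < a.degree := degree_derivative_lt ha
    have hab0 : a * F ≠ 0 := mul_ne_zero ha hF0
    have e : a * (2 * derivative b * F + b * derivative F) - 2 * b * F * derivative a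
        = C 2 * ((a * F) * derivative b) + (a * b) * derivative F - C 2 * ((b * F) * derivative a) := by
      rw [map_ofNat C 2]
      ring
    rw [e]
    have u1 : ((a * F) * derivative b).degree < (a * b * F).degree := by
      rw [show a * b * F = (a * F) * b by ring, degree_mul, degree_mul (p := a * F)]
      exact WithBot.add_lt_add_left (by rw [ne_eq, degree_eq_bot]; exact hab0) t1
    have u2 : ((a * b) * derivative F).degree < (a * b * F).degree := by
      rw [degree_mul, degree_mul (p := a * b)]
      exact WithBot.add_lt_add_left (by rw [ne_eq, degree_eq_bot]; exact mul_ne_zero ha hb) t2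
    have u3 : ((b * F) * derivative a).degree < (a * b * F).degree := by
      rw [show a * b * F = (b * F) * a by ring, degree_mul, degree_mul (p := b * F)]
      exact WithBot.add_lt_add_left (by rw [ne_eq, degree_eq_bot]; exact mul_ne_zero hb hF0) t3
    refine lt_of_le_of_lt (degree_sub_le _ _) (max_lt (lt_of_le_of_lt (degree_add_le _ _)
      (max_lt ?_ u2)) ?_)
    · rw [degree_C_mul h2k]
      exact u1
    · rw [degree_C_mul h2k]
      exact u3
  rw [← key, hD, show (2 : k[X]) = C 2 from (map_ofNat C 2).symm, degree_C_mul h2k,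
    degree_eq_natDegree (mul_ne_zero hN hP), natDegree_mul hN hP, Nat.cast_lt] at hlt
  rw [degree_eq_natDegree hP, Nat.cast_lt]
  omega

end Pool.Agent.H9.OrdHyp
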