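import Pool.Agent.H9.OrdHyp.Main

namespace Pool.Agent.H9.OrdHyp

open Polynomial

variable {k : Type*} [Field k]

/-- The polynomial whose roots form the bad configuration. -/
noncomputable def G (k : Type*) [Field k] (p : ℕ) : k[X] := X ^ (3 * p + 1) + 1

theorem G_natDegree (p : ℕ) : (G k p).natDegree = 3 * p + 1 := by
  unfold G
  rw [← C_1]
  exact natDegree_X_pow_add_C

theorem G_monic (p : ℕ) : (G k p).Monic := by
  unfold G
  rw [← C_1]
  exact monic_X_pow_add_C _ (by omega)

theorem G_separable (p : ℕ) [CharP k p] : (G k p).Separable := by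
  unfold G
  have h : ((3 * p + 1 : ℕ) : k) ≠ 0 := by
    push_cast
    rw [CharP.cast_eq_zero]
    simp
  have := separable_X_pow_sub_C' p (3 * p + 1) (-1 : k) (by
    intro h'
    apply h
    exact (CharP.cast_eq_zero_iff k p _).2 h') (by simp)
  simpa using this

/-- The bad configuration. -/
noncomputable def Λ (k : Type*) [Field k] [DecidableEq k] (p : ℕ) : Finset k :=
  (G k p).roots.toFinset

theorem Λ_nodup (p : ℕ) [CharP k p] : (G k p).roots.Nodup :=
  nodup_roots (G_separable p)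

theorem Λ_card [DecidableEq k] (p : ℕ) [CharP k p] [IsAlgClosed k] : (Λ k p).card = 3 * p + 1 := by
  unfold Λ
  rw [Multiset.toFinset_card_of_nodup (Λ_nodup p), ← G_natDegree (k := k) p]
  exact (splits_iff_card_roots.1 (IsAlgClosed.splits (G k p)))

theorem Λ_prod [DecidableEq k] (p : ℕ) [CharP k p] [IsAlgClosed k] :
    ∏ l ∈ Λ k p, (X - C l) = G k p := by
  have h := (IsAlgClosed.splits (G k p)).eq_prod_roots
  rw [(G_monic p).leadingCoeff, C_1, one_mul] at h
  conv_rhs => rw [h]
  unfold Λ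
  change ((G k p).roots.toFinset.val.map (fun l => X - C l)).prod = _
  rw [Multiset.toFinset_val, (Λ_nodup p).dedup]

theorem branch_eq [DecidableEq k] (p : ℕ) [CharP k p] [IsAlgClosed k] (μ : k) :
    branchPoly (Λ k p) μ = (X - C μ) * G k p := by
  unfold branchPoly
  rw [Λ_prod]

theorem mem_Λ [DecidableEq k] (p : ℕ) (μ : k) : μ ∈ Λ k p ↔ (G k p).eval μ = 0 := by
  unfold Λ
  rw [Multiset.mem_toFinset, mem_roots (G_monic p).ne_zero, IsRoot.def]

/-- The key vanishing. -/
theorem T_zero (p m : ℕ) [Fact p.Prime] [CharP k p] (hm : p = 2 * m + 1) (hm1 : 1 ≤ m)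
    (μ : k) : T p m ((X - C μ) * G k p) ((X - C μ) ^ (m + 1)) = 0 := by
  rw [T_apply]
  have e : (X - C μ) ^ (m + 1) * ((X - C μ) * G k p) ^ m = (X - C μ) ^ p * (G k p) ^ m := by
    rw [mul_pow, ← mul_assoc, ← pow_add]
    congr 2
    omega
  rw [e, iter_const_mul _ _ (deriv_pow_p p _)]
  have h : derivative^[p - 1] ((G k p) ^ m) = 0 := by
    unfold G
    rw [add_pow, iterate_derivative_sum]
    apply Finset.sum_eq_zero
    intro i hi
    rw [Finset.mem_range] at hi
    rw [one_pow, mul_one, ← pow_mul, mul_comm, iterate_derivative_natCast_mul,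
      iterate_derivative_X_pow_eq_natCast_mul]
    have hz : (((3 * p + 1) * i).descFactorial (p - 1) : k[X]) = 0 := by
      rw [CharP.cast_eq_zero_iff k[X] p, Nat.descFactorial_eq_prod_range]
      apply dvd_trans _ (Finset.dvd_prod_of_mem _ (Finset.mem_range.2 (show i < p - 1 by omega)))
      refine ⟨3 * i, ?_⟩
      rw [show (3 * p + 1) * i = p * (3 * i) + i by ring]
      omega
    rw [hz, zero_mul, mul_zero]
  rw [h, mul_zero]


theorem F_natDegree (p : ℕ) (μ : k) : ((X - C μ) * G k p).natDegree = 3 * p + 2 := by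
  rw [natDegree_mul (X_sub_C_ne_zero μ) (G_monic p).ne_zero, natDegree_X_sub_C, G_natDegree]
  ring

theorem F_squarefree (p : ℕ) [CharP k p] (μ : k) (hμ : (G k p).eval μ ≠ 0) :
    Squarefree ((X - C μ) * G k p) := by
  apply Separable.squarefree
  apply Separable.mul (separable_X_sub_C) (G_separable p)
  rw [(irreducible_X_sub_C μ).coprime_iff_not_dvd]
  intro h3
  exact hμ (dvd_iff_isRoot.1 h3)

theorem descFactorial_ne (p i : ℕ) [hp : Fact p.Prime] [CharP k p] :
    (((i * p + (p - 1)).descFactorial (p - 1) : ℕ) : k) ≠ 0 := by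
  rw [ne_eq, CharP.cast_eq_zero_iff k p, Nat.descFactorial_eq_prod_range,
    hp.out.prime.dvd_finsetProd_iff]
  rintro ⟨j, hj, hd⟩
  rw [Finset.mem_range] at hj
  rw [show i * p + (p - 1) - j = i * p + (p - 1 - j) by omega, Nat.dvd_add_right ⟨i, mul_comm _ _⟩] at hd
  have := Nat.le_of_dvd (by omega) hd
  omega

theorem coeff_zero_of_T (p m : ℕ) [hp : Fact p.Prime] [CharP k p] (F P : k[X])
    (h : T p m F P = 0) (i : ℕ) : (X * P * F ^ m).coeff (p * (i + 1)) = 0 := by
  have h1 := congrArg (fun q : k[X] => q.coeff (i * p)) h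
  simp only [T_apply, coeff_zero] at h1
  rw [coeff_iterate_derivative, ← Nat.cast_smul_eq_nsmul k, smul_eq_mul] at h1
  have h2 : (P * F ^ m).coeff (i * p + (p - 1)) = 0 := by
    rcases mul_eq_zero.1 h1 with h3 | h3
    · exact absurd h3 (descFactorial_ne p i)
    · exact h3
  have h3 : p * (i + 1) = (i * p + (p - 1)) + 1 := by
    have := hp.out.pos
    have e : p * (i + 1) = i * p + p := by ring
    omega
  rw [h3, mul_assoc, coeff_X_mul, h2]

theorem det_zero (p m g : ℕ) [hp : Fact p.Prime] [CharP k p] (hm : p = 2 * m + 1) (F P : k[X])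
    (hP : P ≠ 0) (hPd : P.degree < g) (h : T p m F P = 0) : (cartierManin p g F).det = 0 := by
  rw [← Matrix.exists_mulVec_eq_zero_iff]
  refine ⟨fun j => P.coeff j, ?_, ?_⟩
  · intro h0
    apply hP
    ext n
    rw [coeff_zero]
    by_cases hn : n < g
    · exact congrFun h0 ⟨n, hn⟩
    · apply coeff_eq_zero_of_degree_lt
      exact lt_of_lt_of_le hPd (by exact_mod_cast (not_lt.1 hn))
  · ext i
    have h1 := coeff_zero_of_T p m F P h i
    have h2 : P = ∑ j : Fin g, C (P.coeff j) * X ^ (j : ℕ) := by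
      rw [Fin.sum_univ_eq_sum_range (fun j => C (P.coeff j) * X ^ j) g]
      exact as_sum_range_C_mul_X_pow' P (by
        have := hPd
        rw [degree_eq_natDegree hP, Nat.cast_lt] at this
        exact this)
    have h3 : X * P * F ^ m = ∑ j : Fin g, C (P.coeff j) * (X ^ ((j : ℕ) + 1) * F ^ m) := by
      conv_lhs => rw [h2]
      rw [Finset.mul_sum, Finset.sum_mul]
      apply Finset.sum_congr rfl
      intro j _
      ring
    rw [h3, finsetSum_coeff] at h1
    simp only [coeff_C_mul] at h1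
    simp only [Matrix.mulVec, dotProduct, cartierManin, Matrix.of_apply, Pi.zero_apply]
    rw [show (p - 1) / 2 = m by omega, ← h1]
    apply Finset.sum_congr rfl
    intro j _
    ring

/-- Everything together. -/
theorem main (p : ℕ) [hp : Fact p.Prime] (hp2 : p ≠ 2) (k : Type*) [Field k] [IsAlgClosed k]
    [CharP k p] : ∃ (g : ℕ) (Λ : Finset k), 1 ≤ g ∧ Λ.card = 2 * g ∧ ∀ μ : k, μ ∉ Λ →
      (∃ f < g, HasPRank p (branchPoly Λ μ) f) ∧ (cartierManin p g (branchPoly Λ μ)).det = 0 := by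
  classical
  obtain ⟨m, hm⟩ : ∃ m, p = 2 * m + 1 := hp.out.odd_of_ne_two hp2
  have hm1 : 1 ≤ m := by
    have := hp.out.two_le
    omega
  refine ⟨3 * m + 2, Λ k p, by omega, ?_, ?_⟩
  · rw [Λ_card]
    omega
  · intro μ hμ
    rw [mem_Λ] at hμ
    rw [branch_eq]
    have hT := T_zero p m hm hm1 μ
    have hF : ((X - C μ) * G k p).natDegree = 2 * (3 * m + 2) + 1 := by
      rw [F_natDegree]
      omega
    have hP0 : (X - C μ) ^ (m + 1) ≠ 0 := pow_ne_zero _ (X_sub_C_ne_zero μ)
    have hP0d : ((X - C μ) ^ (m + 1)).degree < ((3 * m + 2 : ℕ) : WithBot ℕ) := by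
      rw [degree_pow, degree_X_sub_C, nsmul_one]
      exact_mod_cast (by omega : m + 1 < 3 * m + 2)
    exact ⟨prank_lt p m (3 * m + 2) hm (by omega) hF (F_squarefree p μ hμ) _ hP0 hP0d hT,
      det_zero p m (3 * m + 2) hm _ _ hP0 hP0d hT⟩

end Pool.Agent.H9.OrdHyp
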