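import Pool.Agent.H9.OrdHyp.Ring

namespace Pool.Agent.H9.OrdHyp

open Polynomial

variable {k : Type*} [Field k]

/-- The additive map underlying the derivation `2 y d/dx`. -/
noncomputable def δ₀ (F : k[X]) : CoordRing F →+ CoordRing F where
  toFun z := ⟨2 * derivative z.im * F + z.im * derivative F, 2 * derivative z.re⟩
  map_zero' := by
    apply QuadraticAlgebra.ext
    · simp only [QuadraticAlgebra.re_zero, QuadraticAlgebra.im_zero, derivative_zero]
      ring
    · simp only [QuadraticAlgebra.re_zero, QuadraticAlgebra.im_zero, derivative_zero]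
      ring
  map_add' := by
    intro z w
    apply QuadraticAlgebra.ext
    · simp only [QuadraticAlgebra.re_add, QuadraticAlgebra.im_add, derivative_add]
      ring
    · simp only [QuadraticAlgebra.re_add, QuadraticAlgebra.im_add, derivative_add]
      ring

/-- The derivation `2 y d/dx` on the coordinate ring. -/
noncomputable def δ (F : k[X]) : Derivation ℤ (CoordRing F) (CoordRing F) :=
  Derivation.mk' (R := ℤ) (A := CoordRing F) (M := CoordRing F) (δ₀ F).toIntLinearMap
    (by
      intro z w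
      apply QuadraticAlgebra.ext
      · simp only [δ₀, AddMonoidHom.coe_toIntLinearMap, AddMonoidHom.coe_mk, ZeroHom.coe_mk,
          smul_eq_mul, QuadraticAlgebra.re_add, derivative_zero,
          QuadraticAlgebra.re_mul, QuadraticAlgebra.im_mul, derivative_add, derivative_mul]
        ring
      · simp only [δ₀, AddMonoidHom.coe_toIntLinearMap, AddMonoidHom.coe_mk, ZeroHom.coe_mk,
          smul_eq_mul, QuadraticAlgebra.im_add, derivative_zero,
          QuadraticAlgebra.re_mul, QuadraticAlgebra.im_mul, derivative_add, derivative_mul]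
        ring)

theorem δ_re (F : k[X]) (z : CoordRing F) :
    (δ F z).re = 2 * derivative z.im * F + z.im * derivative F := rfl

theorem δ_im (F : k[X]) (z : CoordRing F) : (δ F z).im = 2 * derivative z.re := rfl

theorem charP_R (p : ℕ) [CharP k p] (F : k[X]) : CharP (CoordRing F) p := by
  have h1 : CharP k[X] p := inferInstance
  exact charP_of_injective_algebraMap (R := k[X]) (A := CoordRing F)
    QuadraticAlgebra.algebraMap_injective p

theorem δ_pow_p (p : ℕ) [CharP k p] (F : k[X]) (z : CoordRing F) : δ F (z ^ p) = 0 := by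
  have := charP_R p F
  rw [Derivation.leibniz_pow, ← Nat.cast_smul_eq_nsmul (CoordRing F), CharP.cast_eq_zero,
    zero_smul]

theorem dvd_delta (p : ℕ) [hp : Fact p.Prime] [CharP k p] (F : k[X])
    [IsDedekindDomain (CoordRing F)] (I : Ideal (CoordRing F)) (f : CoordRing F) (hI : I ≠ ⊥)
    (hIf : I ^ p = Ideal.span {f}) : f ∣ δ F f := by
  have hch := charP_R p F
  obtain ⟨e, heI, he0⟩ := Submodule.exists_mem_ne_zero_of_ne_bot hI
  obtain ⟨J, hJ⟩ : I ∣ Ideal.span {e} := by
    rw [Ideal.dvd_span_singleton]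
    exact heI
  have hf0 : f ≠ 0 := by
    rintro rfl
    apply hI
    rw [Ideal.span_singleton_eq_bot.2 rfl] at hIf
    exact pow_eq_zero_iff (n := p) hp.out.ne_zero |>.1 hIf
  have hep : e ^ p ∈ I ^ p := Ideal.pow_mem_pow heI p
  rw [hIf, Ideal.mem_span_singleton] at hep
  obtain ⟨w, hw⟩ := hep
  have hw0 : w ≠ 0 := by
    rintro rfl
    rw [mul_zero] at hw
    exact he0 (pow_eq_zero_iff (n := p) hp.out.ne_zero |>.1 hw)
  have hJp : J ^ p = Ideal.span {w} := by
    have h1 : Ideal.span {f} * J ^ p = Ideal.span {f} * Ideal.span {w} := by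
      rw [← hIf, ← mul_pow, ← hJ, Ideal.span_singleton_pow, hw, hIf,
        Ideal.span_singleton_mul_span_singleton]
    exact mul_left_cancel₀ (by
      rw [ne_eq, Ideal.zero_eq_bot, Ideal.span_singleton_eq_bot]
      exact hf0) h1
  have hQ : ∀ x ∈ I * J, ∃ r, x ^ p = f * r ∧ w ∣ δ F r := by
    intro x hx
    refine Submodule.mul_induction_on hx ?_ ?_
    · intro a ha b hb
      have ha' : a ^ p ∈ I ^ p := Ideal.pow_mem_pow ha p
      have hb' : b ^ p ∈ J ^ p := Ideal.pow_mem_pow hb p
      rw [hIf, Ideal.mem_span_singleton] at ha'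
      rw [hJp, Ideal.mem_span_singleton] at hb'
      obtain ⟨s, hs⟩ := ha'
      refine ⟨s * b ^ p, ?_, ?_⟩
      · rw [mul_pow, hs]
        ring
      · rw [Derivation.leibniz, δ_pow_p, smul_zero, zero_add, smul_eq_mul]
        exact hb'.mul_right _
    · rintro x y ⟨r, hr, hr'⟩ ⟨s, hs, hs'⟩
      refine ⟨r + s, ?_, ?_⟩
      · rw [add_pow_char, hr, hs]
        ring
      · rw [map_add]
        exact dvd_add hr' hs'
  obtain ⟨r, hr, hr'⟩ := hQ e (by rw [← hJ]; exact Ideal.mem_span_singleton_self e)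
  have hrw : r = w := by
    apply mul_left_cancel₀ hf0
    rw [← hr, hw]
  subst hrw
  obtain ⟨z, hz⟩ := hr'
  have h0 : δ F (e ^ p) = 0 := δ_pow_p p F e
  rw [hw, Derivation.leibniz, hz, smul_eq_mul, smul_eq_mul] at h0
  refine ⟨-z, ?_⟩
  apply mul_left_cancel₀ hw0
  linear_combination h0

/-- The relation between `f` and the polynomial `P` with `y df/dx = f P`. -/
def Rel (F : k[X]) (f : CoordRing F) (P : k[X]) : Prop :=
  derivative f.re = f.im * P ∧ 2 * derivative f.im * F + f.im * derivative F = 2 * f.re * P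

theorem two_ne (p : ℕ) [hp : Fact p.Prime] [CharP k p] (hp2 : p ≠ 2) : (2 : k) ≠ 0 := by
  intro h
  have h' : ((2 : ℕ) : k) = 0 := by exact_mod_cast h
  rw [CharP.cast_eq_zero_iff k p] at h'
  have h3 : p ≤ 2 := Nat.le_of_dvd (by norm_num) h'
  have := hp.out.two_le
  omega

theorem exists_rel {F : k[X]} {g : ℕ} (hF : F.natDegree = 2 * g + 1) (h2k : (2 : k) ≠ 0)
    (f : CoordRing F) (hf : f ≠ 0) (h : f ∣ δ F f) : ∃ P, Rel F f P := by
  obtain ⟨Q, hQ⟩ := h
  have hN := norm_ne hF f hf
  rw [norm_eq] at hN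
  have hre := congrArg QuadraticAlgebra.re hQ
  have him := congrArg QuadraticAlgebra.im hQ
  rw [δ_re, QuadraticAlgebra.re_mul] at hre
  rw [δ_im, QuadraticAlgebra.im_mul] at him
  have hNQ : (f.re ^ 2 - f.im ^ 2 * F) * Q.im = derivative (f.re ^ 2 - f.im ^ 2 * F) := by
    rw [derivative_sub, derivative_mul, derivative_pow, derivative_pow]
    simp only [Nat.cast_ofNat, map_ofNat, Nat.reduceSub, pow_one]
    linear_combination (-f.re) * him + f.im * hre
  have hQ0 : Q.im = 0 := by
    by_contra hne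
    have h1 : (derivative (f.re ^ 2 - f.im ^ 2 * F)).degree < (f.re ^ 2 - f.im ^ 2 * F).degree :=
      degree_derivative_lt hN
    rw [← hNQ, degree_mul] at h1
    have h2 : (f.re ^ 2 - f.im ^ 2 * F).degree ≤ (f.re ^ 2 - f.im ^ 2 * F).degree + Q.im.degree := by
      have h3 : (0 : WithBot ℕ) ≤ Q.im.degree := zero_le_degree_iff.2 hne
      calc (f.re ^ 2 - f.im ^ 2 * F).degree = (f.re ^ 2 - f.im ^ 2 * F).degree + 0 := by rw [add_zero]
        _ ≤ _ := by gcongr
    exact absurd h1 (not_lt.2 h2)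
  have hhalf : (2 : k[X]) * C (1 / 2) = 1 := by
    rw [show (2 : k[X]) = C 2 from (map_ofNat C 2).symm, ← C_mul, mul_one_div_cancel h2k, C_1]
  refine ⟨C (1 / 2) * Q.re, ?_, ?_⟩
  · have h2C : (2 : k[X]) ≠ 0 := left_ne_zero_of_mul_eq_one hhalf
    apply mul_left_cancel₀ h2C
    rw [hQ0] at him
    linear_combination him - f.im * Q.re * hhalf
  · rw [hQ0] at hre
    linear_combination hre - f.re * Q.re * hhalf

theorem delta_of_rel (F : k[X]) (f : CoordRing F) (P : k[X]) (h : Rel F f P) :
    δ F f = f * algebraMap k[X] (CoordRing F) (2 * P) := by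
  obtain ⟨h1, h2⟩ := h
  apply QuadraticAlgebra.ext
  · rw [δ_re, QuadraticAlgebra.re_mul, QuadraticAlgebra.algebraMap_re,
      QuadraticAlgebra.algebraMap_im]
    linear_combination h2
  · rw [δ_im, QuadraticAlgebra.im_mul, QuadraticAlgebra.algebraMap_re,
      QuadraticAlgebra.algebraMap_im]
    linear_combination 2 * h1

theorem exists_root (p : ℕ) [hp : Fact p.Prime] [CharP k p] [IsAlgClosed k] (a : k[X])
    (h : derivative a = 0) : ∃ b, b ^ p = a := by
  have h1 := expand_contract p h hp.out.ne_zero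
  obtain ⟨c, hc⟩ : ∃ c, map (frobenius k p) c = contract p a := by
    refine ⟨map ((frobeniusEquiv k p).symm : k →+* k) (contract p a), ?_⟩
    rw [map_map]
    have : (frobenius k p).comp ((frobeniusEquiv k p).symm : k →+* k) = RingHom.id k := by
      ext x
      simp
    rw [this, map_id]
  refine ⟨c, ?_⟩
  rw [← map_frobenius_expand, map_expand, hc, h1]

theorem omega_pow {F : k[X]} (m : ℕ) (b : k[X]) :
    (⟨0, b⟩ : CoordRing F) ^ (2 * m + 1) = ⟨0, b ^ (2 * m + 1) * F ^ m⟩ := by
  induction m with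
  | zero =>
    simp
  | succ m ih =>
    rw [show 2 * (m + 1) + 1 = (2 * m + 1) + 2 by ring, pow_add, ih, pow_two,
      QuadraticAlgebra.mk_mul_mk, QuadraticAlgebra.mk_mul_mk]
    apply QuadraticAlgebra.ext
    · simp only []
      ring
    · simp only []
      ring

theorem root_of_delta (p m : ℕ) [hp : Fact p.Prime] [CharP k p] [IsAlgClosed k]
    (hm : p = 2 * m + 1) (F : k[X]) (h : CoordRing F) (hh : δ F h = 0) :
    ∃ e : CoordRing F, algebraMap k[X] (CoordRing F) (F ^ p) * h = e ^ p := by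
  have hre := congrArg QuadraticAlgebra.re hh
  have him := congrArg QuadraticAlgebra.im hh
  rw [δ_re, QuadraticAlgebra.re_zero] at hre
  rw [δ_im, QuadraticAlgebra.im_zero] at him
  have h2k : (2 : k) ≠ 0 := two_ne p (by omega)
  have h2C : (2 : k[X]) ≠ 0 := by
    intro h
    apply h2k
    have := congrArg (eval 0) h
    simpa using this
  have ha : derivative h.re = 0 := by
    rcases mul_eq_zero.1 him with h' | h'
    · exact absurd h' h2C
    · exact h'
  have hb : derivative (h.im * F ^ (m + 1)) = 0 := by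
    apply mul_left_cancel₀ h2C
    have hcast : ((2 : k[X]) * ((m : k[X]) + 1)) = 1 := by
      have h' : ((p : ℕ) : k[X]) = 0 := CharP.cast_eq_zero k[X] p
      rw [hm] at h'
      push_cast at h'
      linear_combination h'
    have hc : (C (((m + 1 : ℕ) : k)) : k[X]) = (m : k[X]) + 1 := by
      rw [C_eq_natCast]
      push_cast
      ring
    rw [derivative_mul, derivative_pow, hc]
    simp only [Nat.add_sub_cancel]
    linear_combination F ^ m * hre + h.im * F ^ m * derivative F * hcast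
  obtain ⟨a1, ha1⟩ := exists_root p h.re ha
  obtain ⟨b1, hb1⟩ := exists_root p (h.im * F ^ (m + 1)) hb
  have hch := charP_R p F
  refine ⟨⟨F * a1, b1⟩, ?_⟩
  have hsplit : (⟨F * a1, b1⟩ : CoordRing F) = algebraMap k[X] (CoordRing F) (F * a1) + ⟨0, b1⟩ := by
    apply QuadraticAlgebra.ext
    · simp
    · simp
  rw [hsplit, add_pow_char, ← map_pow]
  have e1 : (⟨0, b1⟩ : CoordRing F) ^ p = ⟨0, b1 ^ p * F ^ m⟩ := by
    conv_lhs => rw [hm]
    rw [omega_pow, ← hm]
  rw [e1, mul_pow, ha1, hb1]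
  have e2 : F ^ p = F ^ (m + 1) * F ^ m := by
    rw [← pow_add]
    congr 1
    omega
  apply QuadraticAlgebra.ext
  · rw [QuadraticAlgebra.re_mul, QuadraticAlgebra.re_add, QuadraticAlgebra.algebraMap_re,
      QuadraticAlgebra.algebraMap_re, QuadraticAlgebra.algebraMap_im]
    ring
  · rw [QuadraticAlgebra.im_mul, QuadraticAlgebra.im_add, QuadraticAlgebra.algebraMap_re,
      QuadraticAlgebra.algebraMap_im, QuadraticAlgebra.algebraMap_im]
    simp only []
    rw [e2]
    ring

theorem ratio (p m : ℕ) [hp : Fact p.Prime] [CharP k p] [IsAlgClosed k]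
    (hm : p = 2 * m + 1) {F : k[X]} (hF0 : F ≠ 0) [IsDomain (CoordRing F)] (f g : CoordRing F)
    (hf : f ≠ 0) (hg : g ≠ 0) (P : k[X]) (hfP : Rel F f P) (hgP : Rel F g P) :
    ∃ u v : CoordRing F, u ≠ 0 ∧ v ≠ 0 ∧ f * u ^ p = g * v ^ p := by
  have hp1 : g ^ p = g ^ (p - 1) * g := by
    conv_lhs => rw [show p = (p - 1) + 1 from (Nat.succ_pred_prime hp.out).symm, pow_succ]
  have hch := charP_R p F
  have hz : δ F (f * g ^ (p - 1)) = 0 := by
    have h1 : δ F (g * (f * g ^ (p - 1))) = g * (algebraMap k[X] (CoordRing F) (2 * P)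
        * (f * g ^ (p - 1))) := by
      rw [show g * (f * g ^ (p - 1)) = f * g ^ p by rw [hp1]; ring, Derivation.leibniz, δ_pow_p,
        delta_of_rel F f P hfP, smul_zero, zero_add, smul_eq_mul, hp1]
      ring
    rw [Derivation.leibniz, delta_of_rel F g P hgP, smul_eq_mul, smul_eq_mul] at h1
    apply mul_left_cancel₀ hg
    rw [mul_zero]
    linear_combination h1
  obtain ⟨e, he⟩ := root_of_delta p m hm F _ hz
  have hFR : algebraMap k[X] (CoordRing F) F ≠ 0 := by
    intro h
    apply hF0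
    apply QuadraticAlgebra.algebraMap_injective (a := F) (b := 0)
    rw [h, map_zero]
  refine ⟨g * algebraMap k[X] (CoordRing F) F, e, mul_ne_zero hg hFR, ?_, ?_⟩
  · rintro rfl
    rw [zero_pow hp.out.ne_zero] at he
    rw [map_pow] at he
    exact (mul_ne_zero (pow_ne_zero _ hFR) (mul_ne_zero hf (pow_ne_zero _ hg))) he
  · rw [← he, mul_pow, hp1, map_pow]
    ring

theorem class_eq (p m : ℕ) [hp : Fact p.Prime] [CharP k p] [IsAlgClosed k]
    (hm : p = 2 * m + 1) {F : k[X]} (hF0 : F ≠ 0) [IsDedekindDomain (CoordRing F)]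
    (I J : nonZeroDivisors (Ideal (CoordRing F)))
    (f g : CoordRing F) (hIf : (I : Ideal (CoordRing F)) ^ p = Ideal.span {f})
    (hJg : (J : Ideal (CoordRing F)) ^ p = Ideal.span {g})
    (hf : f ≠ 0) (hg : g ≠ 0) (P : k[X]) (hfP : Rel F f P) (hgP : Rel F g P) :
    ClassGroup.mk0 I = ClassGroup.mk0 J := by
  obtain ⟨u, v, hu, hv, huv⟩ := ratio p m hm hF0 f g hf hg P hfP hgP
  rw [ClassGroup.mk0_eq_mk0_iff]
  refine ⟨u, v, hu, hv, ?_⟩
  have h1 : (Ideal.span {u} * (I : Ideal (CoordRing F))) ^ p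
      = (Ideal.span {v} * (J : Ideal (CoordRing F))) ^ p := by
    rw [mul_pow, mul_pow, hIf, hJg, Ideal.span_singleton_pow, Ideal.span_singleton_pow,
      Ideal.span_singleton_mul_span_singleton, Ideal.span_singleton_mul_span_singleton]
    congr 2
    rw [mul_comm, huv, mul_comm]
  apply dvd_antisymm
  · exact (UniqueFactorizationMonoid.pow_dvd_pow_iff_dvd hp.out.ne_zero).1 h1.dvd
  · exact (UniqueFactorizationMonoid.pow_dvd_pow_iff_dvd hp.out.ne_zero).1 h1.symm.dvd

end Pool.Agent.H9.OrdHyp
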