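import Pool.Agent.H9.OrdHyp.PolyId

namespace Pool.Agent.H9.OrdHyp

open Polynomial

variable {k : Type*} [Field k]

/-- The operator `P ↦ d^{p-1}/dx^{p-1} (P F^m)`. -/
noncomputable def T (p m : ℕ) (F : k[X]) : k[X] →ₗ[k] k[X] where
  toFun P := derivative^[p - 1] (P * F ^ m)
  map_add' P Q := by rw [add_mul, iterate_map_add]
  map_smul' c P := by rw [smul_mul_assoc, iterate_derivative_smul, RingHom.id_apply]

theorem T_apply (p m : ℕ) (F P : k[X]) : T p m F P = derivative^[p - 1] (P * F ^ m) := rfl

theorem fixed_of_pow (p : ℕ) [hp : Fact p.Prime] [CharP k p] [Algebra (ZMod p) k] (x : k)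
    (hx : x ^ p = x) : ∃ n : ZMod p, algebraMap (ZMod p) k n = x := by
  have h1 : x ∈ (⊥ : Subfield k) := (Subfield.mem_bot_iff_pow_eq_self k p).2 hx
  rw [mem_bot_iff_intCast p k] at h1
  obtain ⟨n, hn⟩ := h1
  exact ⟨n, by rw [map_intCast, hn]⟩

theorem semilin (p : ℕ) [hp : Fact p.Prime] [CharP k p] [IsAlgClosed k] [Algebra (ZMod p) k]
    (T : k[X] →ₗ[k] k[X]) {ι : Type*} (v : ι → k[X]) (hv : ∀ i, T (v i) = - (v i) ^ p)
    (hind : LinearIndependent (ZMod p) v) (s : Finset ι) :
    ∀ c : ι → k, ∑ i ∈ s, c i • v i = 0 → ∀ i ∈ s, c i = 0 := by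
  classical
  have hroot : ∀ y : k, ∃ e : k, e ^ p = y := fun y =>
    IsAlgClosed.exists_pow_nat_eq y hp.out.pos
  induction s using Finset.induction_on with
  | empty => intro c _ i hi; simp at hi
  | insert j s hj ih =>
    intro c hc
    by_cases hcj : c j = 0
    · rw [Finset.sum_insert hj, hcj, zero_smul, zero_add] at hc
      have := ih c hc
      intro i hi
      rcases Finset.mem_insert.1 hi with rfl | hi
      · exact hcj
      · exact this i hi
    · exfalso
      set d : ι → k := fun i => (c j)⁻¹ * c i with hd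
      have hrel : v j + ∑ i ∈ s, d i • v i = 0 := by
        have h1 := congrArg (fun z => (c j)⁻¹ • z) hc
        simp only [smul_zero, Finset.smul_sum, smul_smul] at h1
        rw [Finset.sum_insert hj, inv_mul_cancel₀ hcj, one_smul] at h1
        exact h1
      have hT : (v j) ^ p + ∑ i ∈ s, d i • (v i) ^ p = 0 := by
        have h1 := congrArg T hrel
        rw [map_add, map_sum, map_zero, hv] at h1
        simp only [map_smul, hv, smul_neg, Finset.sum_neg_distrib] at h1
        linear_combination (-1 : k[X]) * h1
      have hFr : (v j) ^ p + ∑ i ∈ s, (d i) ^ p • (v i) ^ p = 0 := by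
        have h1 := congrArg (fun z => z ^ p) hrel
        simp only [zero_pow hp.out.ne_zero] at h1
        rw [add_pow_char, sum_pow_char] at h1
        simpa only [_root_.smul_pow] using h1
      choose e he using fun i => hroot ((d i) ^ p - d i)
      have hsum : ∑ i ∈ s, e i • v i = 0 := by
        have h1 : (∑ i ∈ s, e i • v i) ^ p = 0 := by
          rw [sum_pow_char]
          simp only [_root_.smul_pow, he, sub_smul, Finset.sum_sub_distrib]
          linear_combination hFr - hT
        exact pow_eq_zero_iff (n := p) hp.out.ne_zero |>.1 h1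
      have he0 := ih e hsum
      have hfix : ∀ i ∈ s, (d i) ^ p = d i := by
        intro i hi
        have h1 := he i
        rw [he0 i hi, zero_pow hp.out.ne_zero] at h1
        linear_combination -h1
      have hn : ∀ i, ∃ n : ZMod p, i ∈ s → algebraMap (ZMod p) k n = d i := by
        intro i
        by_cases hi : i ∈ s
        · obtain ⟨n, hn⟩ := fixed_of_pow p (d i) (hfix i hi)
          exact ⟨n, fun _ => hn⟩
        · exact ⟨0, fun h => absurd h hi⟩
      choose n hn using hn
      let n' : ι → ZMod p := fun i => if i = j then 1 else n i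
      have hrel' : ∑ i ∈ insert j s, n' i • v i = 0 := by
        rw [Finset.sum_insert hj]
        have h1 : n' j • v j = v j := by simp [n']
        have h2 : ∑ i ∈ s, n' i • v i = ∑ i ∈ s, d i • v i := by
          apply Finset.sum_congr rfl
          intro i hi
          have hij : i ≠ j := by
            rintro rfl
            exact hj hi
          simp only [n', if_neg hij]
          rw [← hn i hi, algebraMap_smul]
        rw [h1, h2, hrel]
      have := linearIndependent_iff'.1 hind (insert j s) n' hrel' j (Finset.mem_insert_self j s)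
      simp [n'] at this


/-- Adding a kernel vector keeps independence; conclusion on the number of vectors. -/
theorem card_lt (p g : ℕ) [hp : Fact p.Prime] [CharP k p] [IsAlgClosed k] [Algebra (ZMod p) k]
    (T : k[X] →ₗ[k] k[X]) {ι : Type*} [Fintype ι] (v : ι → k[X]) (hv : ∀ i, T (v i) = - (v i) ^ p)
    (hdeg : ∀ i, (v i).degree < g) (hind : LinearIndependent (ZMod p) v)
    (P0 : k[X]) (hP0 : P0 ≠ 0) (hP0d : P0.degree < g) (hTP0 : T P0 = 0) :
    Fintype.card ι + 1 ≤ g := by
  classical
  have hroot : ∀ y : k, ∃ e : k, e ^ p = y := fun y =>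
    IsAlgClosed.exists_pow_nat_eq y hp.out.pos
  have hk := semilin p T v hv hind
  let w : Option ι → degreeLT k g := fun o => match o with
    | none => ⟨P0, mem_degreeLT.2 hP0d⟩
    | some i => ⟨v i, mem_degreeLT.2 (hdeg i)⟩
  have hw : LinearIndependent k w := by
    rw [Fintype.linearIndependent_iff]
    intro c hc
    rw [Fintype.sum_option] at hc
    have hc' : c none • P0 + ∑ i, c (some i) • v i = 0 := by
      have h1 := congrArg (fun z : degreeLT k g => (z : k[X])) hc
      simpa [w] using h1
    choose e he using fun i => hroot (c (some i))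
    have h1 : (∑ i, e i • v i) ^ p = 0 := by
      have h2 := congrArg T hc'
      rw [map_add, map_smul, hTP0, smul_zero, zero_add, map_zero, map_sum] at h2
      simp only [map_smul, hv, smul_neg, Finset.sum_neg_distrib] at h2
      rw [sum_pow_char]
      simp only [_root_.smul_pow, he]
      linear_combination (-1 : k[X]) * h2
    have h3 : ∑ i, e i • v i = 0 := pow_eq_zero_iff (n := p) hp.out.ne_zero |>.1 h1
    have h4 := hk Finset.univ e h3
    have h5 : ∀ i, c (some i) = 0 := by
      intro i
      rw [← he i, h4 i (Finset.mem_univ i), zero_pow hp.out.ne_zero]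
    have h6 : c none = 0 := by
      simp only [h5, zero_smul, Finset.sum_const_zero, add_zero] at hc'
      rcases smul_eq_zero.1 hc' with h | h
      · exact h
      · exact absurd h hP0
    intro o
    cases o with
    | none => exact h6
    | some i => exact h5 i
  have h7 := hw.fintype_card_le_finrank
  rw [Fintype.card_option, (degreeLTEquiv k g).finrank_eq, Module.finrank_fin_fun] at h7
  exact h7

/-- The additive group of solutions. -/
def W (p g : ℕ) [hp : Fact p.Prime] [CharP k p] [Algebra (ZMod p) k]
    (T : k[X] →ₗ[k] k[X]) : Submodule (ZMod p) k[X] where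
  carrier := {P | P.degree < g ∧ T P = - P ^ p}
  add_mem' := by
    rintro P Q ⟨h1, h2⟩ ⟨h3, h4⟩
    refine ⟨lt_of_le_of_lt (degree_add_le _ _) (max_lt h1 h3), ?_⟩
    rw [map_add, h2, h4, add_pow_char]
    ring
  zero_mem' := by
    refine ⟨?_, ?_⟩
    · rw [degree_zero]
      exact WithBot.bot_lt_coe _
    · rw [map_zero, zero_pow hp.out.ne_zero, neg_zero]
  smul_mem' := by
    rintro c P ⟨h1, h2⟩
    have e : c • P = (algebraMap (ZMod p) k c) • P := (algebraMap_smul k c P).symm
    refine ⟨lt_of_le_of_lt ?_ h1, ?_⟩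
    · rw [e]
      exact degree_smul_le _ _
    · rw [e, map_smul, h2, _root_.smul_pow, ← map_pow, ZMod.pow_card, smul_neg]

theorem card_W (p g : ℕ) [hp : Fact p.Prime] [CharP k p] [IsAlgClosed k] [Algebra (ZMod p) k]
    (T : k[X] →ₗ[k] k[X])
    (P0 : k[X]) (hP0 : P0 ≠ 0) (hP0d : P0.degree < g) (hTP0 : T P0 = 0) :
    Finite (W p g T) ∧ Nat.card (W p g T) ≤ p ^ (g - 1) := by
  have h1 : Module.rank (ZMod p) (W p g T) ≤ (g - 1 : ℕ) := by
    apply rank_le
    intro s hs
    have h2 : LinearIndependent (ZMod p) (fun i : s => ((i : W p g T) : k[X])) :=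
      hs.map' (W p g T).subtype (Submodule.ker_subtype _)
    have h3 := card_lt p g T (fun i : s => ((i : W p g T) : k[X]))
      (fun i => (i : W p g T).2.2) (fun i => (i : W p g T).2.1) h2 P0 hP0 hP0d hTP0
    rw [Fintype.card_coe] at h3
    omega
  have h2 : Module.Finite (ZMod p) (W p g T) := by
    rw [← Module.rank_lt_aleph0_iff]
    exact lt_of_le_of_lt h1 (Cardinal.natCast_lt_aleph0)
  have h3 : Module.finrank (ZMod p) (W p g T) ≤ g - 1 := Module.finrank_le_of_rank_le h1
  refine ⟨Module.finite_of_finite (ZMod p), ?_⟩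
  rw [Module.natCard_eq_pow_finrank (K := ZMod p), Nat.card_zmod]
  exact Nat.pow_le_pow_right hp.out.pos h3

end Pool.Agent.H9.OrdHyp
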