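import Pool.Agent.H9.OrdHyp.Ideals
import Pool.Agent.H9.OrdHyp.LinAlg

namespace Pool.Agent.H9.OrdHyp

open Polynomial

variable {k : Type*} [Field k]

/-- The main bound: if the operator `T` kills a nonzero polynomial of degree less than `g`, then
the `p`-rank is less than `g`. -/
theorem prank_lt (p m g : ℕ) [hp : Fact p.Prime] [CharP k p] [IsAlgClosed k] (hm : p = 2 * m + 1)
    (hg : 1 ≤ g) {F : k[X]} (hF : F.natDegree = 2 * g + 1) (hsq : Squarefree F)
    (P0 : k[X]) (hP0 : P0 ≠ 0) (hP0d : P0.degree < g) (hTP0 : T p m F P0 = 0) :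
    ∃ f < g, HasPRank p F f := by
  classical
  let halg : Algebra (ZMod p) k := ZMod.algebra k p
  have h2k : (2 : k) ≠ 0 := two_ne p (by omega)
  have hF0 : F ≠ 0 := by
    rintro rfl
    simp at hF
  have hded : IsDedekindDomain (CoordRing F) := isDedekind hF hsq h2k
  have hdom : IsDomain (CoordRing F) := hded.toIsDomain
  have hch : CharP (CoordRing F) p := charP_R p F
  -- choice of polynomials
  have hex : ∀ c : {c : ClassGroup (CoordRing F) // c ^ p = 1},
      ∃ (P : W p g (T p m F)) (I : nonZeroDivisors (Ideal (CoordRing F))) (f : CoordRing F),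
        ClassGroup.mk0 I = c.1 ∧ (I : Ideal (CoordRing F)) ^ p = Ideal.span {f} ∧ f ≠ 0 ∧
          Rel F f (P : k[X]) := by
    rintro ⟨c, hc⟩
    obtain ⟨I, rfl⟩ := ClassGroup.mk0_surjective c
    rw [← map_pow] at hc
    have hprin : ((I ^ p : nonZeroDivisors (Ideal (CoordRing F))) : Ideal (CoordRing F)).IsPrincipal :=
      (ClassGroup.mk0_eq_one_iff (I ^ p).2).1 hc
    obtain ⟨f, hf⟩ := hprin.principal
    have hIf : (I : Ideal (CoordRing F)) ^ p = Ideal.span {f} := by
      rw [← Ideal.submodule_span_eq, ← hf]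
      simp
    have hI0 : (I : Ideal (CoordRing F)) ≠ ⊥ := nonZeroDivisors.ne_zero I.2
    have hf0 : f ≠ 0 := by
      rintro rfl
      apply hI0
      rw [Ideal.span_singleton_eq_bot.2 rfl] at hIf
      exact pow_eq_zero_iff (n := p) hp.out.ne_zero |>.1 hIf
    have hdvd := dvd_delta p F (I : Ideal (CoordRing F)) f hI0 hIf
    obtain ⟨P, hP⟩ := exists_rel hF h2k f hf0 hdvd
    have hab : f.re ≠ 0 ∨ f.im ≠ 0 := by
      by_contra h
      push Not at h
      exact hf0 (QuadraticAlgebra.ext h.1 h.2)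
    have hdeg := deg_bound hF h2k f.re f.im P hab hP.1 hP.2
    have hTP : T p m F P = - P ^ p :=
      key p m hm f.re f.im P F hP.1 hP.2 hF0 (norm_ne_zero hF _ _ hab)
    exact ⟨⟨P, hdeg, hTP⟩, I, f, rfl, hIf, hf0, hP⟩
  choose Φ I f hmk hIf hf0 hrel using hex
  have hinj : Function.Injective Φ := by
    intro c d hcd
    have h1 := class_eq p m hm hF0 (I c) (I d) (f c) (f d) (hIf c) (hIf d) (hf0 c) (hf0 d)
      (Φ c) (hrel c) (by rw [hcd]; exact hrel d)
    rw [hmk, hmk] at h1
    exact Subtype.ext h1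
  obtain ⟨hfin, hcard⟩ := card_W p g (T p m F) P0 hP0 hP0d hTP0
  -- the torsion subgroup
  let G : Subgroup (ClassGroup (CoordRing F)) := (powMonoidHom p : ClassGroup (CoordRing F) →* _).ker
  let e : G ≃ {c : ClassGroup (CoordRing F) // c ^ p = 1} :=
    Equiv.subtypeEquivRight (fun c => by simp [G, MonoidHom.mem_ker])
  have hinj' : Function.Injective (fun c : G => Φ (e c)) := hinj.comp e.injective
  have hfinG : Finite G := Finite.of_injective _ hinj'
  have hcardG : Nat.card G ≤ p ^ (g - 1) :=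
    (Nat.card_le_card_of_injective _ hinj').trans hcard
  have hpG : IsPGroup p G := by
    intro x
    refine ⟨1, ?_⟩
    rw [pow_one]
    have := (e x).2
    exact Subtype.ext this
  obtain ⟨n, hn⟩ := IsPGroup.iff_card.1 hpG
  have hn' : n ≤ g - 1 := by
    rw [hn] at hcardG
    exact (Nat.pow_le_pow_iff_right hp.out.one_lt).1 hcardG
  refine ⟨n, by omega, hdom, ?_⟩
  rw [← Nat.card_congr e, hn]

end Pool.Agent.H9.OrdHyp
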