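import Pool.Agent.H9.OrdHyp.Defs

namespace Pool.Agent.H9.OrdHyp

open Polynomial

variable {k : Type*} [Field k]

theorem iter_const_mul (Z h : k[X]) (hZ : derivative Z = 0) (n : ℕ) :
    derivative^[n] (Z * h) = Z * derivative^[n] h := by
  induction n with
  | zero => rfl
  | succ n ih =>
    rw [Function.iterate_succ_apply', ih, derivative_mul, hZ, zero_mul, zero_add,
      Function.iterate_succ_apply']

theorem deriv_pow_p (p : ℕ) [CharP k p] (f : k[X]) : derivative (f ^ p) = 0 := by
  rw [derivative_pow, CharP.cast_eq_zero, map_zero, zero_mul, zero_mul]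

theorem wilson_cast (p : ℕ) [Fact p.Prime] [CharP k p] : (((p - 1).factorial : ℕ) : k) = -1 := by
  have h := ZMod.wilsons_lemma p
  have h2 : (((p - 1).factorial + 1 : ℕ) : ZMod p) = 0 := by
    push_cast
    rw [h]
    ring
  rw [CharP.cast_eq_zero_iff (ZMod p) p] at h2
  have h3 : (((p - 1).factorial + 1 : ℕ) : k) = 0 := (CharP.cast_eq_zero_iff k p _).2 h2
  push_cast at h3
  linear_combination h3

/-- The property in the identity of Hochschild and Jacobson. -/
def E (p : ℕ) (φ : k[X]) : Prop :=
  derivative^[p - 1] (φ ^ (p - 1) * derivative φ) = - (derivative φ) ^ p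

theorem E_C (p : ℕ) [hp : Fact p.Prime] (c : k) : E p (C c) := by
  unfold E
  rw [derivative_C, mul_zero, iterate_derivative_zero, zero_pow hp.out.ne_zero, neg_zero]

theorem E_X_sub_C (p : ℕ) [hp : Fact p.Prime] [CharP k p] (c : k) : E p (X - C c) := by
  unfold E
  rw [derivative_X_sub_C, mul_one, iterate_derivative_X_sub_pow_self, one_pow]
  have := wilson_cast (k := k) p
  rw [← C_eq_natCast, this, C_neg, C_1]

theorem E_mul (p : ℕ) [hp : Fact p.Prime] [CharP k p] (f g : k[X]) (hf : E p f) (hg : E p g) :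
    E p (f * g) := by
  unfold E at *
  have h1 : (f * g) ^ (p - 1) * derivative (f * g)
      = g ^ p * (f ^ (p - 1) * derivative f) + f ^ p * (g ^ (p - 1) * derivative g) := by
    have hp1 : p = (p - 1) + 1 := (Nat.succ_pred_prime hp.out).symm
    have hg' : g ^ p = g ^ (p - 1) * g := by
      conv_lhs => rw [hp1, pow_succ]
    have hf' : f ^ p = f ^ (p - 1) * f := by
      conv_lhs => rw [hp1, pow_succ]
    rw [hg', hf', derivative_mul, mul_pow]
    ring
  rw [h1, iterate_map_add, iter_const_mul _ _ (deriv_pow_p p g), iter_const_mul _ _ (deriv_pow_p p f),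
    hf, hg, derivative_mul, add_pow_char, mul_pow, mul_pow]
  ring

theorem E_all (p : ℕ) [hp : Fact p.Prime] [CharP k p] [IsAlgClosed k] (f : k[X]) : E p f := by
  have h := (IsAlgClosed.splits f).eq_prod_roots
  rw [h]
  apply E_mul p _ _ (E_C p _)
  induction f.roots using Multiset.induction_on with
  | empty =>
    simp only [Multiset.map_zero, Multiset.prod_zero]
    exact E_C p 1
  | cons a s ih =>
    simp only [Multiset.map_cons, Multiset.prod_cons]
    exact E_mul p _ _ (E_X_sub_C p a) ih


/-- The pointwise form of the key identity. -/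
theorem key_pt (p m : ℕ) [hp : Fact p.Prime] [CharP k p] [IsAlgClosed k] (hm : p = 2 * m + 1)
    (a b P F : k[X]) (h1 : derivative a = b * P)
    (h2 : 2 * derivative b * F + b * derivative F = 2 * a * P) (x : k)
    (hFx : F.eval x ≠ 0) (hNx : (a ^ 2 - b ^ 2 * F).eval x ≠ 0) :
    (derivative^[p - 1] (P * F ^ m)).eval x = (- P ^ p).eval x := by
  have h2k : (2 : k) ≠ 0 := by
    intro h
    have h' : ((2 : ℕ) : k) = 0 := by exact_mod_cast h
    rw [CharP.cast_eq_zero_iff k p] at h'
    have h3 : p ≤ 2 := Nat.le_of_dvd (by norm_num) h'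
    have := hp.out.two_le
    omega
  obtain ⟨κ, hκ⟩ := IsAlgClosed.exists_pow_nat_eq ((F.eval x ^ p)⁻¹) (n := 2) (by norm_num)
  have hκF : κ ^ 2 * F.eval x ^ p = 1 := by
    rw [hκ]
    exact inv_mul_cancel₀ (pow_ne_zero _ hFx)
  have hκ0 : κ ≠ 0 := by
    rintro rfl
    simp at hκF
  set φ : k[X] := a + C κ * b * F ^ (m + 1) with hφ
  have hφ' : derivative φ = P * (b + C κ * F ^ m * a) := by
    have h2C : (2 : k[X]) ≠ 0 := by
      intro h
      apply h2k
      have := congrArg (eval 0) h
      simpa using this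
    apply mul_left_cancel₀ h2C
    have hcast : ((2 : k[X]) * ((m : k[X]) + 1)) = 1 := by
      have h' : ((p : ℕ) : k[X]) = 0 := CharP.cast_eq_zero k[X] p
      rw [hm] at h'
      push_cast at h'
      linear_combination h'
    rw [hφ, derivative_add, derivative_mul, derivative_mul, derivative_C, derivative_pow, h1]
    simp only [Nat.add_sub_cancel, zero_mul, zero_add]
    have hc : (C (((m + 1 : ℕ) : k)) : k[X]) = (m : k[X]) + 1 := by
      rw [C_eq_natCast]
      push_cast
      ring
    rw [hc]
    have e : 2 * (b * P + (C κ * derivative b * F ^ (m + 1) + C κ * b * (((m : k[X]) + 1) * F ^ m * derivative F)))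
        = 2 * b * P + C κ * F ^ m * (2 * derivative b * F + b * (2 * ((m : k[X]) + 1)) * derivative F) := by
      ring
    rw [e, hcast, mul_one, h2]
    ring
  set Z : k[X] := C (κ ^ 2) * F ^ p - 1 with hZ
  have hZ' : derivative Z = 0 := by
    rw [hZ, derivative_sub, derivative_mul, deriv_pow_p p F, derivative_C, derivative_one]
    ring
  have hZx : Z.eval x = 0 := by
    rw [hZ]
    simp only [eval_sub, eval_mul, eval_C, eval_pow, eval_one]
    rw [hκF, sub_self]
  have hrel : derivative φ = P * (C κ * F ^ m * φ) - Z * (P * b) := by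
    rw [hφ', hZ, hφ, C_pow]
    have : F ^ p = F ^ m * F ^ (m + 1) := by
      rw [← pow_add]
      congr 1
      omega
    rw [this]
    ring
  have hprod : φ ^ (p - 1) * derivative φ
      = (C κ * φ ^ p) * (P * F ^ m) - Z * (P * b * φ ^ (p - 1)) := by
    have hp1 : φ ^ p = φ ^ (p - 1) * φ := by
      conv_lhs => rw [show p = (p - 1) + 1 from (Nat.succ_pred_prime hp.out).symm, pow_succ]
    rw [hrel, hp1]
    ring
  have hE := E_all p φ
  unfold E at hE
  have hc : derivative (C κ * φ ^ p) = 0 := by
    rw [derivative_mul, deriv_pow_p p φ, derivative_C]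
    ring
  rw [hprod, iterate_derivative_sub, iter_const_mul _ _ hc, iter_const_mul _ _ hZ'] at hE
  have hEx := congrArg (eval x) hE
  rw [hφ'] at hEx
  simp only [eval_sub, eval_mul, eval_C, eval_pow, hZx, zero_mul, sub_zero, eval_neg, eval_add] at hEx
  rw [eval_neg, eval_pow]
  have hκm : (κ * F.eval x ^ m) ^ p = κ := by
    have : (κ * F.eval x ^ m) ^ p = κ * (κ ^ 2 * F.eval x ^ p) ^ m := by
      rw [mul_pow, mul_pow, ← pow_mul, ← pow_mul, ← pow_mul]
      rw [show m * p = p * m by ring]
      rw [← mul_assoc]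
      congr 1
      conv_lhs => rw [hm, pow_succ]
      ring
    rw [this, hκF, one_pow, mul_one]
  have hφx : φ.eval x ≠ 0 := by
    intro h0
    apply hNx
    have : (a ^ 2 - b ^ 2 * F).eval x = φ.eval x * (a.eval x - κ * b.eval x * F.eval x ^ (m + 1)) := by
      rw [hφ]
      simp only [eval_sub, eval_mul, eval_C, eval_pow, eval_add]
      have e2 : κ ^ 2 * (F.eval x ^ (m + 1)) ^ 2 = F.eval x := by
        have : (F.eval x ^ (m + 1)) ^ 2 = F.eval x ^ p * F.eval x := by
          rw [← pow_mul, ← pow_succ]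
          congr 1
          omega
        rw [this, ← mul_assoc, hκF, one_mul]
      linear_combination (- (b.eval x) ^ 2) * (-1 : k) * e2
    rw [this, h0, zero_mul]
  have hψ : b.eval x + κ * F.eval x ^ m * a.eval x = κ * F.eval x ^ m * φ.eval x := by
    rw [hφ]
    simp only [eval_sub, eval_mul, eval_C, eval_pow, eval_add]
    have e3 : κ ^ 2 * (F.eval x ^ m * F.eval x ^ (m + 1)) = 1 := by
      rw [← pow_add, show m + (m + 1) = p by omega]
      exact hκF
    linear_combination (- b.eval x) * e3
  rw [hψ, mul_pow, mul_pow, hκm] at hEx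
  have hne : κ * φ.eval x ^ p ≠ 0 := mul_ne_zero hκ0 (pow_ne_zero _ hφx)
  apply mul_left_cancel₀ hne
  linear_combination hEx

theorem key (p m : ℕ) [hp : Fact p.Prime] [CharP k p] [IsAlgClosed k] (hm : p = 2 * m + 1)
    (a b P F : k[X]) (h1 : derivative a = b * P)
    (h2 : 2 * derivative b * F + b * derivative F = 2 * a * P)
    (hF : F ≠ 0) (hN : a ^ 2 - b ^ 2 * F ≠ 0) :
    derivative^[p - 1] (P * F ^ m) = - P ^ p := by
  have hprod : (derivative^[p - 1] (P * F ^ m) + P ^ p) * (F * (a ^ 2 - b ^ 2 * F)) = 0 := by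
    apply Polynomial.funext
    intro x
    rw [eval_zero, eval_mul, eval_mul]
    by_cases hFx : F.eval x = 0
    · rw [hFx, zero_mul, mul_zero]
    by_cases hNx : (a ^ 2 - b ^ 2 * F).eval x = 0
    · rw [hNx, mul_zero, mul_zero]
    have := key_pt p m hm a b P F h1 h2 x hFx hNx
    rw [eval_add, this, eval_neg]
    ring
  rcases mul_eq_zero.1 hprod with h | h
  · linear_combination h
  · exact absurd h (mul_ne_zero hF hN)

end Pool.Agent.H9.OrdHyp
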