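import Pool.Agent.H9.OrdHyp.Deg

namespace Pool.Agent.H9.OrdHyp

open Polynomial

variable {k : Type*} [Field k]

theorem norm_eq (F : k[X]) (z : CoordRing F) :
    QuadraticAlgebra.norm z = z.re ^ 2 - z.im ^ 2 * F := by
  rw [QuadraticAlgebra.norm_def]
  ring

theorem norm_ne {F : k[X]} {g : ℕ} (hF : F.natDegree = 2 * g + 1) (z : CoordRing F) (hz : z ≠ 0) :
    QuadraticAlgebra.norm z ≠ 0 := by
  rw [norm_eq]
  apply norm_ne_zero hF
  by_contra h
  push Not at h
  exact hz (QuadraticAlgebra.ext h.1 h.2)

theorem isDomain {F : k[X]} {g : ℕ} (hF : F.natDegree = 2 * g + 1) : IsDomain (CoordRing F) := by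
  have : NoZeroDivisors (CoordRing F) := by
    constructor
    intro z w hzw
    by_contra h
    push Not at h
    have h1 := norm_ne hF z h.1
    have h2 := norm_ne hF w h.2
    apply mul_ne_zero h1 h2
    rw [← map_mul, hzw, QuadraticAlgebra.norm_zero]
  exact NoZeroDivisors.to_isDomain _

theorem isNoeth (F : k[X]) : IsNoetherianRing (CoordRing F) :=
  IsNoetherianRing.of_finite k[X] (CoordRing F)

theorem isInt (F : k[X]) : Algebra.IsIntegral k[X] (CoordRing F) := inferInstance

theorem dimLE {F : k[X]} [IsDomain (CoordRing F)] : Ring.DimensionLEOne (CoordRing F) :=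
  Ring.DimensionLEOne.of_isIntegral k[X] (CoordRing F)


/-- A square-divisibility fact. -/
theorem sq_dvd_sqfree {F : k[X]} (hsq : Squarefree F) {n m : k[X]} (hn : n ≠ 0)
    (h : n ^ 2 ∣ m ^ 2 * F) : n ∣ m := by
  classical
  obtain ⟨n', m', hn', hm', hu⟩ := extract_gcd n m
  set d := gcd n m with hd
  have hd0 : d ≠ 0 := by
    intro h0
    apply hn
    rw [hn', h0, zero_mul]
  have h1 : n' ^ 2 ∣ m' ^ 2 * F := by
    have h2 : d ^ 2 * n' ^ 2 ∣ d ^ 2 * (m' ^ 2 * F) := by
      rw [← mul_assoc, ← mul_pow, ← mul_pow, ← hn', ← hm']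
      exact h
    exact (mul_dvd_mul_iff_left (pow_ne_zero 2 hd0)).1 h2
  have hcop : IsCoprime n' m' := by
    rw [← gcd_isUnit_iff]
    exact hu
  have h3 : n' ^ 2 ∣ F := (hcop.pow (m := 2) (n := 2)).dvd_of_dvd_mul_left h1
  have h4 : IsUnit n' := hsq n' (by rw [← pow_two]; exact h3)
  rw [hn', hm']
  exact mul_dvd_mul_left d (h4.dvd)

theorem dvd_of_integral {K : Type*} [Field K] [Algebra k[X] K] [FaithfulSMul k[X] K] (s n : k[X])
    (hn : n ≠ 0) (h : IsIntegral k[X] (algebraMap k[X] K s / algebraMap k[X] K n)) : n ∣ s := by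
  let := FractionRing.liftAlgebra k[X] K
  have : IsScalarTower k[X] (FractionRing k[X]) K := FractionRing.isScalarTower_liftAlgebra k[X] K
  have e : algebraMap k[X] K s / algebraMap k[X] K n
      = algebraMap (FractionRing k[X]) K
        (algebraMap k[X] (FractionRing k[X]) s / algebraMap k[X] (FractionRing k[X]) n) := by
    rw [map_div₀, ← IsScalarTower.algebraMap_apply, ← IsScalarTower.algebraMap_apply]
  rw [e, isIntegral_algebraMap_iff (algebraMap (FractionRing k[X]) K).injective] at h
  obtain ⟨t, ht⟩ := IsIntegrallyClosed.isIntegral_iff.1 h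
  refine ⟨t, ?_⟩
  apply IsFractionRing.injective k[X] (FractionRing k[X])
  have hn' : algebraMap k[X] (FractionRing k[X]) n ≠ 0 := by
    rw [ne_eq, FaithfulSMul.algebraMap_eq_zero_iff]
    exact hn
  rw [map_mul, ht, mul_div_cancel₀ _ hn']

theorem diff_sq (F : k[X]) (w : CoordRing F) :
    (w - star w) ^ 2 = algebraMap k[X] (CoordRing F) ((2 * w.im) ^ 2 * F) := by
  rw [pow_two]
  apply QuadraticAlgebra.ext
  · rw [QuadraticAlgebra.re_mul, QuadraticAlgebra.re_sub, QuadraticAlgebra.im_sub,
      QuadraticAlgebra.re_star, QuadraticAlgebra.im_star, QuadraticAlgebra.algebraMap_re]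
    ring
  · rw [QuadraticAlgebra.im_mul, QuadraticAlgebra.re_sub, QuadraticAlgebra.im_sub,
      QuadraticAlgebra.re_star, QuadraticAlgebra.im_star, QuadraticAlgebra.algebraMap_im]
    ring

theorem intClosed {F : k[X]} {g : ℕ} (hF : F.natDegree = 2 * g + 1) (hsq : Squarefree F)
    (h2k : (2 : k) ≠ 0) [IsDomain (CoordRing F)] (x : FractionRing (CoordRing F))
    (hx : IsIntegral (CoordRing F) x) :
    ∃ y, algebraMap (CoordRing F) (FractionRing (CoordRing F)) y = x := by
  have hxA : IsIntegral k[X] x := isIntegral_trans (R := k[X]) (A := CoordRing F) x hx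
  obtain ⟨u, v, hv, rfl⟩ := IsFractionRing.div_surjective (A := CoordRing F) x
  have hv0 : v ≠ 0 := nonZeroDivisors.ne_zero hv
  set n : k[X] := QuadraticAlgebra.norm v with hn
  have hn0 : n ≠ 0 := norm_ne hF v hv0
  set w : CoordRing F := u * star v with hw
  have hinj : Function.Injective (algebraMap (CoordRing F) (FractionRing (CoordRing F))) :=
    IsFractionRing.injective _ _
  have hsv : star v ≠ 0 := by
    intro h
    apply hv0
    have := congrArg star h
    rwa [star_star, star_zero] at this
  have hvK : algebraMap (CoordRing F) (FractionRing (CoordRing F)) v ≠ 0 := by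
    rw [ne_eq, FaithfulSMul.algebraMap_eq_zero_iff]; exact hv0
  have hsvK : algebraMap (CoordRing F) (FractionRing (CoordRing F)) (star v) ≠ 0 := by
    rw [ne_eq, FaithfulSMul.algebraMap_eq_zero_iff]; exact hsv
  have hnR : algebraMap k[X] (CoordRing F) n = v * star v :=
    QuadraticAlgebra.algebraMap_norm_eq_mul_star v
  have hnK : algebraMap k[X] (FractionRing (CoordRing F)) n ≠ 0 := by
    rw [IsScalarTower.algebraMap_apply k[X] (CoordRing F) (FractionRing (CoordRing F)), hnR, map_mul]
    exact mul_ne_zero hvK hsvK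
  have hxw : algebraMap (CoordRing F) (FractionRing (CoordRing F)) u
      / algebraMap (CoordRing F) (FractionRing (CoordRing F)) v
      = algebraMap (CoordRing F) (FractionRing (CoordRing F)) w
        / algebraMap k[X] (FractionRing (CoordRing F)) n := by
    rw [IsScalarTower.algebraMap_apply k[X] (CoordRing F) (FractionRing (CoordRing F)), hnR, hw,
      map_mul, map_mul, mul_div_mul_right _ _ hsvK]
  rw [hxw] at hxA ⊢
  -- the conjugate element
  let σ : CoordRing F →+* CoordRing F := starRingEnd (CoordRing F)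
  have hσ : Function.Injective σ := by
    intro z1 z2 hz
    have := congrArg star hz
    rw [starRingEnd_apply, starRingEnd_apply, star_star, star_star] at this
    exact this
  let σK : FractionRing (CoordRing F) →+* FractionRing (CoordRing F) := IsFractionRing.map hσ
  have hσK : ∀ z : CoordRing F, σK (algebraMap _ _ z) = algebraMap _ _ (star z) := by
    intro z
    exact IsLocalization.map_eq _ z
  have hσA : ∀ s : k[X], σK (algebraMap k[X] _ s) = algebraMap k[X] _ s := by
    intro s
    rw [IsScalarTower.algebraMap_apply k[X] (CoordRing F) (FractionRing (CoordRing F)), hσK]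
    congr 1
    ext <;> simp
  have hxσ : IsIntegral k[X] (σK (algebraMap (CoordRing F) (FractionRing (CoordRing F)) w
        / algebraMap k[X] (FractionRing (CoordRing F)) n)) := by
    apply IsIntegral.map_of_comp_eq (RingHom.id k[X]) σK _ hxA
    ext s
    · simp only [RingHom.comp_apply, RingHom.id_apply]
      exact (hσA _).symm
    · simp only [RingHom.comp_apply, RingHom.id_apply]
      exact (hσA _).symm
  rw [map_div₀, hσK, hσA] at hxσ
  have hsum := hxA.add hxσ
  have hdiff := (hxA.sub hxσ).pow 2
  have e1 : algebraMap (CoordRing F) (FractionRing (CoordRing F)) w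
        / algebraMap k[X] (FractionRing (CoordRing F)) n
      + algebraMap (CoordRing F) (FractionRing (CoordRing F)) (star w)
        / algebraMap k[X] (FractionRing (CoordRing F)) n
      = algebraMap k[X] (FractionRing (CoordRing F)) (2 * w.re)
        / algebraMap k[X] (FractionRing (CoordRing F)) n := by
    rw [← add_div, ← map_add,
      IsScalarTower.algebraMap_apply k[X] (CoordRing F) (FractionRing (CoordRing F)) (2 * w.re)]
    congr 2
    ext <;> simp <;> ring
  have e2 : (algebraMap (CoordRing F) (FractionRing (CoordRing F)) w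
        / algebraMap k[X] (FractionRing (CoordRing F)) n
      - algebraMap (CoordRing F) (FractionRing (CoordRing F)) (star w)
        / algebraMap k[X] (FractionRing (CoordRing F)) n) ^ 2
      = algebraMap k[X] (FractionRing (CoordRing F)) ((2 * w.im) ^ 2 * F)
        / algebraMap k[X] (FractionRing (CoordRing F)) (n ^ 2) := by
    rw [← sub_div, ← map_sub, div_pow, map_pow (algebraMap k[X] _) n, ← map_pow,
      IsScalarTower.algebraMap_apply k[X] (CoordRing F) (FractionRing (CoordRing F))
        ((2 * w.im) ^ 2 * F)]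
    rw [diff_sq]
  rw [e1] at hsum
  rw [e2] at hdiff
  have : FaithfulSMul k[X] (FractionRing (CoordRing F)) := by
    rw [faithfulSMul_iff_algebraMap_injective,
      IsScalarTower.algebraMap_eq k[X] (CoordRing F) (FractionRing (CoordRing F))]
    exact hinj.comp QuadraticAlgebra.algebraMap_injective
  have d1 : n ∣ 2 * w.re := dvd_of_integral _ _ hn0 hsum
  have d2 : n ^ 2 ∣ (2 * w.im) ^ 2 * F := dvd_of_integral _ _ (pow_ne_zero 2 hn0) hdiff
  have d3 : n ∣ 2 * w.im := sq_dvd_sqfree hsq hn0 d2
  have hu2 : IsUnit (2 : k[X]) := by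
    rw [show (2 : k[X]) = C 2 from (map_ofNat C 2).symm]
    exact isUnit_C.2 (isUnit_iff_ne_zero.2 h2k)
  have d1' : n ∣ w.re := (hu2.dvd_mul_left).1 d1
  have d3' : n ∣ w.im := (hu2.dvd_mul_left).1 d3
  obtain ⟨y, hy⟩ : algebraMap k[X] (CoordRing F) n ∣ w :=
    QuadraticAlgebra.algebraMap_dvd_iff.2 ⟨d1', d3'⟩
  refine ⟨y, ?_⟩
  rw [hy, map_mul, ← IsScalarTower.algebraMap_apply, mul_div_cancel_left₀ _ hnK]

theorem isDedekind {F : k[X]} {g : ℕ} (hF : F.natDegree = 2 * g + 1) (hsq : Squarefree F)
    (h2k : (2 : k) ≠ 0) : IsDedekindDomain (CoordRing F) := by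
  have h1 := isDomain hF
  rw [isDedekindDomain_iff (CoordRing F) (FractionRing (CoordRing F))]
  exact ⟨h1, isNoeth F, dimLE, fun {x} hx => intClosed hF hsq h2k x hx⟩

end Pool.Agent.H9.OrdHyp
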